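import Pool.Agent.Lib.Pad47bbB.Quot
import Pool.Agent.Lib.Pad47bbB.Eff
import Pool.Agent.Lib.Pad47bb.Index

/-!
Preparations for the extraction theorem: change of the lattice, the group induced on a quotient,
the stabiliser of a finite set of lattice points.
-/

open Set Topology

namespace Pool.Agent.Lib.Pad47bbX

open Pool.Agent.Lib.Pad47bb Pool.Agent.Lib.Pad47bbQ Pool.Agent.Lib.Pad47bbV
  Pool.Agent.Lib.Pad47bbB

section lattice

variable {V : Type*} [NormedAddCommGroup V] [NormedSpace ℝ V] {L M : Submodule ℤ V}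

/-- a finite set of vectors of `M` generates the same cone as a finite set of vectors of `L`, if
`n M ⊆ L` -/
theorem isRatPoly_of_smul {n : ℕ} (hn : 0 < n) (h : ∀ x ∈ M, (n : ℝ) • x ∈ L)
    {P : PointedCone ℝ V} (hP : IsRatPoly M P) : IsRatPoly L P := by
  classical
  obtain ⟨s, hs, rfl⟩ := hP
  have hn' : (0 : ℝ) < n := by exact_mod_cast hn
  refine ⟨s.image (fun x => (n : ℝ) • x), ?_, ?_⟩
  · intro x hx
    obtain ⟨y, hy, rfl⟩ := Finset.mem_image.1 hx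
    exact h y (hs hy)
  · apply le_antisymm
    · apply Submodule.span_le.2
      intro x hx
      have h1 : (n : ℝ) • x ∈ PointedCone.hull ℝ
          ((s.image (fun x => (n : ℝ) • x) : Finset V) : Set V) :=
        Submodule.subset_span (Finset.mem_coe.2 (Finset.mem_image_of_mem _ hx))
      have h2 := (PointedCone.hull ℝ
        ((s.image (fun x => (n : ℝ) • x) : Finset V) : Set V)).smul_mem
        (show (0 : ℝ) ≤ (n : ℝ)⁻¹ by positivity) h1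
      rwa [smul_smul, inv_mul_cancel₀ hn'.ne', one_smul] at h2
    · apply Submodule.span_le.2
      intro x hx
      obtain ⟨y, hy, rfl⟩ := Finset.mem_image.1 (Finset.mem_coe.1 hx)
      exact (PointedCone.hull ℝ (s : Set V)).smul_mem hn'.le (Submodule.subset_span hy)

theorem isRatPoly_mono (h : ∀ x ∈ M, x ∈ L) {P : PointedCone ℝ V} (hP : IsRatPoly M P) :
    IsRatPoly L P := by
  obtain ⟨s, hs, rfl⟩ := hP
  exact ⟨s, fun x hx => h x (hs hx), rfl⟩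

theorem hasRPFD_comm {n : ℕ} (hn : 0 < n) (h : ∀ x ∈ M, (n : ℝ) • x ∈ L) (h' : ∀ x ∈ L, x ∈ M)
    {Γ : Subgroup (V ≃ₗ[ℝ] V)} {K : PointedCone ℝ V} : HasRPFD M Γ K ↔ HasRPFD L Γ K :=
  ⟨fun ⟨P, hP, hK⟩ => ⟨P, isRatPoly_of_smul hn h hP, hK⟩,
    fun ⟨P, hP, hK⟩ => ⟨P, isRatPoly_mono h' hP, hK⟩⟩

theorem ratHull_comm {n : ℕ} (hn : 0 < n) (h : ∀ x ∈ M, (n : ℝ) • x ∈ L) (h' : ∀ x ∈ L, x ∈ M)
    (N : PointedCone ℝ V) : ratHull M N = ratHull L N := by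
  have hn' : (0 : ℝ) < n := by exact_mod_cast hn
  apply le_antisymm
  · apply Submodule.span_le.2
    rintro x ⟨hxN, hxM⟩
    have h1 : (n : ℝ) • x ∈ ratHull L N := Submodule.subset_span ⟨N.smul_mem hn'.le hxN, h x hxM⟩
    have h2 := (ratHull L N).smul_mem (show (0 : ℝ) ≤ (n : ℝ)⁻¹ by positivity) h1
    rwa [smul_smul, inv_mul_cancel₀ hn'.ne', one_smul] at h2
  · exact Submodule.span_mono fun x hx => ⟨hx.1, h' x hx.2⟩

end lattice

section induced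

variable {V : Type*} [NormedAddCommGroup V] [NormedSpace ℝ V]
  {U : Type*} [NormedAddCommGroup U] [NormedSpace ℝ U]

/-- The group of the automorphisms of `U` which are induced, via `π : V → U`, by elements of `Γ`. -/
def induced (π : V →ₗ[ℝ] U) (Γ : Subgroup (V ≃ₗ[ℝ] V)) : Subgroup (U ≃ₗ[ℝ] U) where
  carrier := {h | ∃ g ∈ Γ, ∀ x, h (π x) = π (g x)}
  mul_mem' := by
    rintro h h' ⟨g, hg, e⟩ ⟨g', hg', e'⟩
    refine ⟨g * g', mul_mem hg hg', fun x => ?_⟩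
    show h (h' (π x)) = π (g (g' x))
    rw [e', e]
  one_mem' := ⟨1, one_mem Γ, fun x => rfl⟩
  inv_mem' := by
    rintro h ⟨g, hg, e⟩
    refine ⟨g⁻¹, inv_mem hg, fun x => ?_⟩
    have h1 := e (g⁻¹ x)
    have h2 : g (g⁻¹ x) = x := g.apply_symm_apply x
    rw [h2] at h1
    have h3 : h⁻¹ (h (π (g⁻¹ x))) = π (g⁻¹ x) := h.symm_apply_apply _
    rw [h1] at h3
    exact h3

theorem mem_induced {π : V →ₗ[ℝ] U} {Γ : Subgroup (V ≃ₗ[ℝ] V)} {h : U ≃ₗ[ℝ] U} :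
    h ∈ induced π Γ ↔ ∃ g ∈ Γ, ∀ x, h (π x) = π (g x) := Iff.rfl

theorem induced_mono (π : V →ₗ[ℝ] U) {Γ Γ₀ : Subgroup (V ≃ₗ[ℝ] V)} (h : Γ₀ ≤ Γ) :
    induced π Γ₀ ≤ induced π Γ := fun _ ⟨g, hg, e⟩ => ⟨g, h hg, e⟩

end induced

section fixer

variable {V : Type*} [NormedAddCommGroup V] [NormedSpace ℝ V]

/-- The elements of `Γ` which fix all points of `J`. -/
def fixer (Γ : Subgroup (V ≃ₗ[ℝ] V)) (J : Finset V) : Subgroup (V ≃ₗ[ℝ] V) where
  carrier := {g | g ∈ Γ ∧ ∀ p ∈ J, g p = p}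
  mul_mem' := by
    rintro g h ⟨hg, hgp⟩ ⟨hh, hhp⟩
    refine ⟨mul_mem hg hh, fun p hp => ?_⟩
    show g (h p) = p
    rw [hhp p hp, hgp p hp]
  one_mem' := ⟨one_mem Γ, fun p _ => rfl⟩
  inv_mem' := by
    rintro g ⟨hg, hgp⟩
    refine ⟨inv_mem hg, fun p hp => ?_⟩
    have h1 : g⁻¹ (g p) = p := g.symm_apply_apply p
    rw [hgp p hp] at h1
    exact h1

theorem fixer_le (Γ : Subgroup (V ≃ₗ[ℝ] V)) (J : Finset V) : fixer Γ J ≤ Γ := fun _ h => h.1

theorem fixer_finiteIndex {Γ : Subgroup (V ≃ₗ[ℝ] V)} {J : Finset V}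
    (hperm : ∀ g ∈ Γ, ∀ p ∈ J, g p ∈ J) : ((fixer Γ J).subgroupOf Γ).FiniteIndex := by
  classical
  -- the map `Γ → (J → J)` has the cosets as fibres
  have hfin : Finite (Γ ⧸ (fixer Γ J).subgroupOf Γ) := by
    let F : Γ → (J → J) := fun g p => ⟨(g : V ≃ₗ[ℝ] V) p, hperm g g.2 p p.2⟩
    have hF : ∀ a b : Γ, F a = F b → a⁻¹ * b ∈ (fixer Γ J).subgroupOf Γ := by
      intro a b hab
      rw [Subgroup.mem_subgroupOf]
      refine ⟨(a⁻¹ * b).2, fun p hp => ?_⟩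
      have h1 := congrFun hab ⟨p, hp⟩
      have h2 : (a : V ≃ₗ[ℝ] V) p = (b : V ≃ₗ[ℝ] V) p := congrArg Subtype.val h1
      show (a : V ≃ₗ[ℝ] V)⁻¹ ((b : V ≃ₗ[ℝ] V) p) = p
      rw [← h2]
      exact (a : V ≃ₗ[ℝ] V).symm_apply_apply p
    have hsur : ∀ q : Γ ⧸ (fixer Γ J).subgroupOf Γ, ∃ a : Γ, (QuotientGroup.mk a) = q :=
      fun q => Quot.exists_rep q
    choose a ha using hsur
    refine Finite.of_injective (fun q => F (a q)) ?_
    intro q q' hqq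
    rw [← ha q, ← ha q', QuotientGroup.eq]
    exact hF _ _ hqq
  exact Subgroup.finiteIndex_of_finite_quotient

end fixer

end Pool.Agent.Lib.Pad47bbX
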