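import Pool.Agent.Lib.Pad47bbX.Red
import Pool.Agent.Lib.Pad47bbK.ToBd

/-!
Contraction of components of the boundary of a klt Calabi-Yau pair: the cone conjecture for `X` is
equivalent to the cone conjecture for the contraction `X'`, together with the condition that the
automorphisms of `X'` which lift to `X` form a subgroup of finite index.
-/

open Set Topology

namespace Pool.Agent.Lib.Pad47bbX

open Pool.Agent.Lib.Pad47bb Pool.Agent.Lib.Pad47bbQ Pool.Agent.Lib.Pad47bbV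
  Pool.Agent.Lib.Pad47bbB Pool.Agent.Lib.Pad47bbK

variable {V : Type*} [NormedAddCommGroup V] [NormedSpace ℝ V]
  {U : Type*} [NormedAddCommGroup U] [NormedSpace ℝ U]

/-- `π = f_*` for a birational contraction `f : X ⇢ X'` whose exceptional divisors are the elements
of `J`: `L`, `M` are the lattices of the classes of Cartier divisors, `K`, `K'` the effective nef
(or effective movable) cones, `G`, `G'` the groups of `X` and of `X'`. -/
structure IsContraction (L : Submodule ℤ V) (K : PointedCone ℝ V) (J : Finset V)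
    (G : Subgroup (V ≃ₗ[ℝ] V)) (M : Submodule ℤ U) (K' : PointedCone ℝ U)
    (G' : Subgroup (U ≃ₗ[ℝ] U)) (π : V →ₗ[ℝ] U) : Prop where
  ker : ∀ x, π x = 0 ↔ x ∈ Submodule.span ℝ (J : Set V)
  lattice : ∃ n : ℕ, 0 < n ∧ ∀ x ∈ L, (n : ℝ) • π x ∈ M
  map_cone : ∀ x ∈ K, π x ∈ K'
  onto : ∀ u ∈ K', ∃ x ∈ K, π x = u
  lift : ∀ u ∈ M, u ∈ K' → ∃ n : ℕ, 0 < n ∧ ∃ x ∈ L, x ∈ K ∧ π x = (n : ℝ) • u
  descend : ∀ h : U ≃ₗ[ℝ] U, (∃ g ∈ G, ∀ x, h (π x) = π (g x)) → h ∈ G'

theorem induced_stabSub {L : Submodule ℤ V} {K : PointedCone ℝ V} {J : Finset V}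
    {G : Subgroup (V ≃ₗ[ℝ] V)} {M : Submodule ℤ U} {K' : PointedCone ℝ U}
    {G' : Subgroup (U ≃ₗ[ℝ] U)} {π : V →ₗ[ℝ] U} (X : IsContraction L K J G M K' G' π) :
    induced π (stabSub G (Submodule.span ℝ (J : Set V))) = induced π G := by
  apply le_antisymm (induced_mono π (stabSub_le G _))
  rintro h ⟨g, hg, e⟩
  refine ⟨g, ⟨hg, fun x => ?_⟩, e⟩
  rw [← X.ker, ← X.ker, ← e]
  constructor
  · intro h1
    have h2 : h.symm (h (π x)) = h.symm 0 := by rw [h1]
    rwa [h.symm_apply_apply, map_zero] at h2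
  · intro h1
    rw [h1, map_zero]

theorem IsContraction.reduction {L : Submodule ℤ V} {K : PointedCone ℝ V} {J : Finset V}
    {G : Subgroup (V ≃ₗ[ℝ] V)} {M : Submodule ℤ U} {K' : PointedCone ℝ U}
    {G' : Subgroup (U ≃ₗ[ℝ] U)} {π : V →ₗ[ℝ] U} (X : IsContraction L K J G M K' G' π)
    (fin : ∀ S : Finset V, (∀ y ∈ S, y ∈ L ∧ y ∈ K) → IsRatPoly L (K ⊓ sumCone S J)) :
    IsReduction L K J (stabSub G (Submodule.span ℝ (J : Set V))) M K' G' π where
  ker := X.ker
  preserves := fun g hg p hp => (hg.2 p).2 (Submodule.subset_span hp)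
  lattice := X.lattice
  map_cone := X.map_cone
  onto := X.onto
  lift := X.lift
  descend := by
    rw [induced_stabSub X]
    exact fun h hh => X.descend h (mem_induced.1 hh)
  fin := fin

variable [FiniteDimensional ℝ V] [FiniteDimensional ℝ U]

/-- The contraction theorem, general form. -/
theorem hasRPFD_contraction {L : Submodule ℤ V} [DiscreteTopology L] [IsZLattice ℝ L]
    {M : Submodule ℤ U} [DiscreteTopology M] [IsZLattice ℝ M] {K : PointedCone ℝ V}
    {J J₀ : Finset V} {G : Subgroup (V ≃ₗ[ℝ] V)} {K' : PointedCone ℝ U}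
    {G' : Subgroup (U ≃ₗ[ℝ] U)} {π : V →ₗ[ℝ] U} (S : Setting L K G) (S' : Setting M K' G')
    (hJ : J₀ ⊆ J) (hperm : ∀ g ∈ G, ∀ p ∈ J, g p ∈ J)
    (X : IsContraction L K J₀ G M K' G' π)
    (fin : ∀ S : Finset V, (∀ y ∈ S, y ∈ L ∧ y ∈ K) → IsRatPoly L (K ⊓ sumCone S J₀)) :
    HasRPFD L G K ↔ HasRPFD M G' K' ∧ ((induced π G).subgroupOf G').FiniteIndex := by
  have h1 : HasRPFD L (stabSub G (Submodule.span ℝ (J₀ : Set V))) K ↔ HasRPFD L G K := by
    rw [hasRPFD_subgroup_iff (stabSub_le _ _) S]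
    exact and_iff_left (stabSub_finiteIndex hJ hperm)
  rw [← h1, hasRPFD_iff_reduction (S.mono (stabSub_le _ _)) S' (X.reduction fin),
    induced_stabSub X]

/-- The contraction theorem for nef cones. -/
theorem BdPair.hasRPFD_contraction {L : Submodule ℤ V} [DiscreteTopology L] [IsZLattice ℝ L]
    {M : Submodule ℤ U} [DiscreteTopology M] [IsZLattice ℝ M] {N E : PointedCone ℝ V}
    {J J₀ : Finset V} {G : Subgroup (V ≃ₗ[ℝ] V)} (D : BdPair L N E J G) (hJ : J₀ ⊆ J)
    {K' : PointedCone ℝ U} {G' : Subgroup (U ≃ₗ[ℝ] U)} {π : V →ₗ[ℝ] U}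
    (S' : Setting M K' G') (X : IsContraction L (N ⊓ E) J₀ G M K' G' π)
    (heff : ∀ x ∈ L, x ∈ N → π x ∈ K' → x ∈ E) :
    HasRPFD L G (N ⊓ E) ↔ HasRPFD M G' K' ∧ ((induced π G).subgroupOf G').FiniteIndex := by
  have hS : Setting L (N ⊓ E) G := by
    refine ⟨?_, ?_, D.acts.map_lattice, fun g hg x hx => ⟨D.acts.map_cone g hg x hx.1,
      D.eff_map g hg x hx.2⟩⟩
    · intro x hx hx'
      have hcl : closure ((N ⊓ E : PointedCone ℝ V) : Set V) ⊆ (N : Set V) :=
        closure_minimal (fun y hy => hy.1) D.good.closed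
      exact D.good.salient x (hcl hx) (hcl hx')
    · obtain ⟨e, he⟩ := D.good.interior_nonempty
      refine ⟨e, ?_⟩
      rw [mem_interior]
      exact ⟨interior (N : Set V), fun y hy => ⟨interior_subset hy, D.int_le hy⟩,
        isOpen_interior, he⟩
  refine Pad47bbX.hasRPFD_contraction hS S' hJ D.perm X fun S hSK => ?_
  -- the boundary data
  obtain ⟨Ξ, hΞ⟩ := D.cone ∅ (by simp)
  have hB : BdCone L N J₀ Ξ := by
    refine ⟨fun p hp => (D.comp p (hJ hp)).1, hΞ.integral, hΞ.nonneg, ?_, ?_⟩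
    · obtain ⟨B, hB⟩ := hΞ.bounded
      exact ⟨B, fun ξ hξ p hp => (hB ξ hξ).1 p (hJ hp)⟩
    · intro x hx hx'
      exact hΞ.mem x (fun φ hφ hφJ _ => hx φ hφ fun p hp => hφJ p (hJ hp)) hx'
  obtain ⟨s, hsL, hs⟩ := isRatPoly_inf hB S fun y hy => ⟨(hSK y hy).1, (hSK y hy).2.1⟩
  -- `N ⊓ (cone S + span J₀)` is effective
  have hle : N ⊓ sumCone S J₀ ≤ E := by
    rw [hs]
    apply Submodule.span_le.2
    intro x hx
    have h1 : x ∈ N ⊓ sumCone S J₀ := by rw [hs]; exact Submodule.subset_span hx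
    refine heff x (hsL hx) h1.1 ?_
    obtain ⟨y, hy, hxy⟩ := mem_sumCone.1 h1.2
    have h2 : π x = π y := by
      have h3 := (X.ker _).2 hxy
      rwa [map_sub, sub_eq_zero] at h3
    rw [h2]
    refine X.map_cone y ?_
    have h4 : PointedCone.hull ℝ (S : Set V) ≤ N ⊓ E :=
      Submodule.span_le.2 fun z hz => (hSK z hz).2
    exact h4 hy
  have heq : N ⊓ E ⊓ sumCone S J₀ = N ⊓ sumCone S J₀ := by
    apply le_antisymm
    · exact inf_le_inf_right _ inf_le_left
    · exact le_inf (le_inf inf_le_left hle) inf_le_right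
  rw [heq]
  exact ⟨s, hsL, hs⟩

omit [FiniteDimensional ℝ V] [FiniteDimensional ℝ U] in
/-- A nef lattice class whose image is in the interior of the image of the nef cone is effective. -/
theorem _root_.Pool.Agent.Lib.Pad47bbK.KltPair.eff_of_interior (P : KltPair V)
    {M : Submodule ℤ U} {J₀ : Finset V} (hJ : J₀ ⊆ P.comp)
    {K' : PointedCone ℝ U} {G' : Subgroup (U ≃ₗ[ℝ] U)} {π : V →ₗ[ℝ] U}
    (X : IsContraction P.L (P.nef ⊓ P.eff) J₀ P.aut M K' G' π) {x : V} (hxL : x ∈ P.L)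
    (hx : x ∈ P.nef) (hπ : π x ∈ interior (K' : Set U)) : x ∈ P.eff := by
  obtain ⟨e, he⟩ := P.interior_nef_nonempty
  obtain ⟨δ, hδ, hball⟩ := Metric.isOpen_iff.1 isOpen_interior _ hπ
  set c : ℝ := δ / (2 * (1 + ‖π e‖)) with hc
  have hc0 : 0 < c := by positivity
  have hcv : ‖c • π e‖ < δ := by
    rw [norm_smul, Real.norm_of_nonneg hc0.le, hc, div_mul_eq_mul_div,
      div_lt_iff₀ (by positivity)]
    nlinarith [norm_nonneg (π e)]
  have h1 : π x - c • π e ∈ K' := interior_subset (hball (by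
    simpa [Metric.mem_ball, dist_eq_norm, norm_sub_rev] using hcv))
  obtain ⟨z, hz, hzx⟩ := X.onto _ h1
  have h2 : c • e + z ∈ interior (P.nef : Set V) := interior_add (interior_smul' he hc0) hz.1
  refine P.eff_of_sub hxL hx ⟨x - (c • e + z), ?_, ?_⟩
  · refine Submodule.span_mono (Finset.coe_subset.2 hJ) ((X.ker _).1 ?_)
    rw [map_sub, map_add, map_smul, hzx]
    abel
  · rwa [sub_sub_cancel]

/-- The contraction theorem for the nef cone of a klt Calabi-Yau pair. -/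
theorem _root_.Pool.Agent.Lib.Pad47bbK.KltPair.hasRPFD_contraction (P : KltPair V)
    [DiscreteTopology P.L] [IsZLattice ℝ P.L] {M : Submodule ℤ U} [DiscreteTopology M]
    [IsZLattice ℝ M] {J₀ : Finset V} (hJ : J₀ ⊆ P.comp)
    {K' : PointedCone ℝ U} {G' : Subgroup (U ≃ₗ[ℝ] U)} {π : V →ₗ[ℝ] U}
    (S' : Setting M K' G') (X : IsContraction P.L (P.nef ⊓ P.eff) J₀ P.aut M K' G' π)
    (heff : ∀ x ∈ P.L, x ∈ P.nef → π x ∈ K' → π x ∉ interior (K' : Set U) → x ∈ P.eff) :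
    HasRPFD P.L P.aut (P.nef ⊓ P.eff) ↔
      HasRPFD M G' K' ∧ ((induced π P.aut).subgroupOf G').FiniteIndex :=
  BdPair.hasRPFD_contraction P.bdPair hJ S' X fun x hxL hx hπ => by
    by_cases hint : π x ∈ interior (K' : Set U)
    · exact P.eff_of_interior hJ X hxL hx hint
    · exact heff x hxL hx hπ hint

end Pool.Agent.Lib.Pad47bbX
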