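import Pool.Agent.Lib.Pad47bb.Index
import Pool.Agent.Lib.Pad47bbB.Poly

/-!
Rational polyhedral fundamental domains modulo a group of classes (extraction of divisors).
-/

open Set Topology

namespace Pool.Agent.Lib.Pad47bbX

open Pool.Agent.Lib.Pad47bb Pool.Agent.Lib.Pad47bbB

variable {V V' : Type*} [NormedAddCommGroup V] [NormedSpace ℝ V] [NormedAddCommGroup V']
  [NormedSpace ℝ V']

/-- A linear map `π` from `(V, L, K, G)` to `(V', L', K', G')` whose kernel is spanned by `J`: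
`π` sends the lattice points and the cone to the lattice points (up to multiples) and the cone,
every point of `K'` lifts to `K` (lattice points up to multiples to lattice points), every element
of `G` descends, and every element of a subgroup of finite index of `G'` lifts. -/
structure IsExtraction (L : Submodule ℤ V) (K : PointedCone ℝ V) (G : Subgroup (V ≃ₗ[ℝ] V))
    (J : Finset V) (π : V →ₗ[ℝ] V') (L' : Submodule ℤ V') (K' : PointedCone ℝ V')
    (G' : Subgroup (V' ≃ₗ[ℝ] V')) : Prop where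
  ker : ∀ x, π x = 0 → x ∈ Submodule.span ℝ (J : Set V)
  map_lattice : ∀ x ∈ L, ∃ n : ℕ, 0 < n ∧ (n : ℝ) • π x ∈ L'
  map_cone : ∀ x ∈ K, π x ∈ K'
  lift : ∀ y ∈ K', ∃ x ∈ K, π x = y ∧ (y ∈ L' → ∃ n : ℕ, 0 < n ∧ (n : ℝ) • x ∈ L)
  descend : ∀ g ∈ G, ∃ h ∈ G', ∀ x, h (π x) = π (g x)
  lift_group : ∃ D : Subgroup (V' ≃ₗ[ℝ] V'), D ≤ G' ∧ (D.subgroupOf G').FiniteIndex ∧
    ∀ h ∈ D, ∃ g ∈ G, ∀ x, h (π x) = π (g x)

omit [NormedAddCommGroup V] [NormedSpace ℝ V] in
/-- The cone over the images of a finite set of vectors. -/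
theorem hull_image_le {s : Finset V} {f : V → V'} [DecidableEq V'] {K' : PointedCone ℝ V'}
    (h : ∀ x ∈ s, f x ∈ K') :
    PointedCone.hull ℝ ((s.image f : Finset V') : Set V') ≤ K' := by
  refine Submodule.span_le.2 ?_
  intro y hy
  obtain ⟨x, hx, rfl⟩ := Finset.mem_image.1 (Finset.mem_coe.1 hy)
  exact h x hx

variable [FiniteDimensional ℝ V] [FiniteDimensional ℝ V']

/-- Fundamental domains modulo `span J`. -/
theorem hasRPFD_extraction {L : Submodule ℤ V} [DiscreteTopology L] [IsZLattice ℝ L]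
    {L' : Submodule ℤ V'} [DiscreteTopology L'] [IsZLattice ℝ L']
    {K M : PointedCone ℝ V} {G : Subgroup (V ≃ₗ[ℝ] V)} {J : Finset V}
    {π : V →ₗ[ℝ] V'} {K' : PointedCone ℝ V'} {G' : Subgroup (V' ≃ₗ[ℝ] V')}
    (S : Setting L K G) (S' : Setting L' K' G') (X : IsExtraction L K G J π L' K' G')
    (hKM : K ≤ M)
    (fin : ∀ s : Finset V, (∀ x ∈ s, x ∈ L ∧ x ∈ K) →
      IsRatPoly L (M ⊓ sumCone s J) ∧ M ⊓ sumCone s J ≤ K) :
    HasRPFD L G K ↔ HasRPFD L' G' K' := by
  classical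
  constructor
  · rintro ⟨P, hP, hcov, -⟩
    have hPK : P ≤ K := IsRatPoly.le_of_cover hcov
    obtain ⟨s, hsL, rfl⟩ := hP
    choose! n hn0 hn using X.map_lattice
    have hsK : ∀ a ∈ s, a ∈ K := fun a ha => hPK (Submodule.subset_span ha)
    have hP' : IsRatPoly L' (PointedCone.hull ℝ
        ((s.image fun a => (n a : ℝ) • π a : Finset V') : Set V')) := by
      refine ⟨_, ?_, rfl⟩
      intro y hy
      obtain ⟨a, ha, rfl⟩ := Finset.mem_image.1 (Finset.mem_coe.1 hy)
      exact hn a (hsL ha)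
    refine exists_fundDomain S' hP' ?_
    apply Subset.antisymm
    · intro y hy
      obtain ⟨x, hx, rfl, -⟩ := X.lift y hy
      have hx' : x ∈ (K : Set V) := hx
      rw [hcov] at hx'
      obtain ⟨g, hg, p, hp, rfl⟩ := mem_iUnion₂.1 hx'
      obtain ⟨h, hh, hgh⟩ := X.descend g hg
      refine mem_iUnion₂.2 ⟨h, hh, π p, ?_, hgh p⟩
      obtain ⟨c, hc, rfl⟩ := mem_hull_finset.1 hp
      rw [map_sum]
      refine sum_mem fun a ha => ?_
      have hna : (0 : ℝ) < n a := by exact_mod_cast hn0 a (hsL ha)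
      have : π (c a • a) = (c a / n a) • ((n a : ℝ) • π a) := by
        rw [map_smul, smul_smul, div_mul_cancel₀ _ hna.ne']
      rw [this]
      refine PointedCone.smul_mem _ (div_nonneg (hc a ha) hna.le) (Submodule.subset_span ?_)
      exact Finset.mem_coe.2 (Finset.mem_image_of_mem _ ha)
    · intro y hy
      obtain ⟨h, hh, q, hq, rfl⟩ := mem_iUnion₂.1 hy
      refine S'.map_cone h hh q ?_
      refine hull_image_le (fun a ha => ?_) hq
      exact PointedCone.smul_mem _ (Nat.cast_nonneg _) (X.map_cone a (hsK a ha))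
  · rintro ⟨P', hP', hcov', -⟩
    obtain ⟨D, hDG, hDfi, hD⟩ := X.lift_group
    obtain ⟨Q', hQ', hQcov⟩ := exists_cover_of_finiteIndex hDG S' hP' hcov' hDfi
    have hQK : Q' ≤ K' := IsRatPoly.le_of_cover hQcov
    obtain ⟨s', hs'L, rfl⟩ := hQ'
    have hs'K : ∀ a ∈ s', a ∈ K' := fun a ha => hQK (Submodule.subset_span ha)
    choose! u huK huπ hun using X.lift
    choose! n hn0 hnL using hun
    set s : Finset V := s'.image fun a => (n a : ℝ) • u a with hs
    have hsLK : ∀ x ∈ s, x ∈ L ∧ x ∈ K := by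
      intro x hx
      obtain ⟨a, ha, rfl⟩ := Finset.mem_image.1 hx
      exact ⟨hnL a (hs'K a ha) (hs'L ha),
        PointedCone.smul_mem _ (Nat.cast_nonneg _) (huK a (hs'K a ha))⟩
    obtain ⟨hfin, hfinK⟩ := fin s hsLK
    refine exists_fundDomain S hfin ?_
    apply Subset.antisymm
    · intro x hx
      have hy : π x ∈ (K' : Set V') := X.map_cone x hx
      rw [hQcov] at hy
      obtain ⟨h, hh, q, hq, hqx⟩ := mem_iUnion₂.1 hy
      obtain ⟨g, hg, hgh⟩ := hD h⁻¹ (D.inv_mem hh)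
      have hgx : π (g x) = q := by
        rw [← hgh x, ← hqx]
        exact h.symm_apply_apply q
      refine mem_iUnion₂.2 ⟨g⁻¹, G.inv_mem hg, g x, ⟨hKM (S.map_cone g hg x hx), ?_⟩,
        g.symm_apply_apply x⟩
      refine mem_sumCone.2 ?_
      obtain ⟨c, hc, rfl⟩ := mem_hull_finset.1 hq
      refine ⟨∑ a ∈ s', (c a / n a) • ((n a : ℝ) • u a), ?_, X.ker _ ?_⟩
      · refine sum_mem fun a ha => ?_
        refine PointedCone.smul_mem _ (div_nonneg (hc a ha) (Nat.cast_nonneg _))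
          (Submodule.subset_span ?_)
        exact Finset.mem_coe.2 (Finset.mem_image_of_mem _ ha)
      · rw [map_sub, hgx, map_sum, sub_eq_zero]
        refine Finset.sum_congr rfl fun a ha => ?_
        have hna : (0 : ℝ) < n a := by exact_mod_cast hn0 a (hs'K a ha) (hs'L ha)
        rw [smul_smul, div_mul_cancel₀ _ hna.ne', map_smul, huπ a (hs'K a ha)]
    · intro x hx
      obtain ⟨g, hg, q, hq, rfl⟩ := mem_iUnion₂.1 hx
      exact S.map_cone g hg q (hfinK hq)

end Pool.Agent.Lib.Pad47bbX
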