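import Pool.Agent.Lib.Pad47bbX.Basic

/-!
The stabiliser of the span of some of the permuted classes has finite index.
-/

open Set Topology

namespace Pool.Agent.Lib.Pad47bbX

open Pool.Agent.Lib.Pad47bb Pool.Agent.Lib.Pad47bbQ Pool.Agent.Lib.Pad47bbV
  Pool.Agent.Lib.Pad47bbB

section stab

variable {V : Type*} [NormedAddCommGroup V] [NormedSpace ℝ V]

/-- The elements of `Γ` which preserve the subspace `W`. -/
def stabSub (Γ : Subgroup (V ≃ₗ[ℝ] V)) (W : Submodule ℝ V) : Subgroup (V ≃ₗ[ℝ] V) where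
  carrier := {g | g ∈ Γ ∧ ∀ x, g x ∈ W ↔ x ∈ W}
  mul_mem' := by
    rintro g h ⟨hg, hgp⟩ ⟨hh, hhp⟩
    refine ⟨mul_mem hg hh, fun x => ?_⟩
    show g (h x) ∈ W ↔ x ∈ W
    rw [hgp, hhp]
  one_mem' := ⟨one_mem Γ, fun x => Iff.rfl⟩
  inv_mem' := by
    rintro g ⟨hg, hgp⟩
    refine ⟨inv_mem hg, fun x => ?_⟩
    have h1 : g (g⁻¹ x) = x := g.apply_symm_apply x
    have h2 := hgp (g⁻¹ x)
    rw [h1] at h2
    exact h2.symm

theorem stabSub_le (Γ : Subgroup (V ≃ₗ[ℝ] V)) (W : Submodule ℝ V) : stabSub Γ W ≤ Γ :=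
  fun _ h => h.1

theorem fixer_le_stabSub (Γ : Subgroup (V ≃ₗ[ℝ] V)) {J J₀ : Finset V} (hJ : J₀ ⊆ J) :
    fixer Γ J ≤ stabSub Γ (Submodule.span ℝ (J₀ : Set V)) := by
  intro g hg
  have key : ∀ h ∈ fixer Γ J, ∀ x ∈ Submodule.span ℝ (J₀ : Set V), h x = x := by
    intro h hh x hx
    induction hx using Submodule.span_induction with
    | mem x hx => exact hh.2 x (hJ hx)
    | zero => exact map_zero h
    | add x y _ _ ex ey => rw [map_add, ex, ey]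
    | smul c x _ ex => rw [map_smul, ex]
  refine ⟨hg.1, fun x => ⟨fun hx => ?_, fun hx => ?_⟩⟩
  · have h1 := key g⁻¹ (inv_mem hg) _ hx
    have h2 : g⁻¹ (g x) = x := g.symm_apply_apply x
    rw [h2] at h1
    rw [h1]
    exact hx
  · rw [key g hg x hx]
    exact hx

theorem stabSub_finiteIndex {Γ : Subgroup (V ≃ₗ[ℝ] V)} {J J₀ : Finset V} (hJ : J₀ ⊆ J)
    (hperm : ∀ g ∈ Γ, ∀ p ∈ J, g p ∈ J) :
    ((stabSub Γ (Submodule.span ℝ (J₀ : Set V))).subgroupOf Γ).FiniteIndex := by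
  have := fixer_finiteIndex hperm
  exact Subgroup.finiteIndex_of_le (H := (fixer Γ J).subgroupOf Γ)
    (fun g hg => fixer_le_stabSub Γ hJ hg)

end stab

end Pool.Agent.Lib.Pad47bbX
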