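import Pool.Agent.Lib.Pad47bbX.Contr

/-!
Klt Calabi-Yau pairs and their movable cones: the record of the facts which we use.

Dictionary. `(X, Δ)` is a projective `ℚ`-factorial klt pair with `K_X + Δ ≡ 0`; `V = N¹(X)_ℝ`,
`L` = classes of the Cartier divisors, `mov` = closed movable cone, `eff` = `Eff(X)`,
`psaut` = image of `PsAut(X, Δ)`, `comp` = classes of the irreducible components of `Δ`, times an
integer `m > 0`, `klt` = the classes of `K_X + B` for all klt pairs `(X, B)`.
-/

open Set Topology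

namespace Pool.Agent.Lib.Pad47bbX

open Pool.Agent.Lib.Pad47bb Pool.Agent.Lib.Pad47bbB

/-- The facts which we use of a projective `ℚ`-factorial klt Calabi-Yau pair of dimension three, or
of any dimension in which klt pairs have good minimal models. -/
structure MovPair (V : Type*) [NormedAddCommGroup V] [NormedSpace ℝ V] where
  /-- the lattice of the classes of Cartier divisors -/
  L : Submodule ℤ V
  /-- the closed movable cone -/
  mov : PointedCone ℝ V
  /-- the effective cone -/
  eff : PointedCone ℝ V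
  /-- the action of the pseudo-automorphisms of `(X, Δ)` -/
  psaut : Subgroup (V ≃ₗ[ℝ] V)
  /-- the classes of the components of `Δ`, times `m` -/
  comp : Finset V
  /-- the classes of the divisors `K_X + B` with `(X, B)` klt -/
  klt : Set V
  interior_nonempty : (interior ((mov ⊓ eff : PointedCone ℝ V) : Set V)).Nonempty
  eff_salient : ∀ x ∈ closure (eff : Set V), -x ∈ closure (eff : Set V) → x = 0
  map_lattice : ∀ g ∈ psaut, ∀ x ∈ L, g x ∈ L
  map_mov : ∀ g ∈ psaut, ∀ x ∈ mov, g x ∈ mov
  map_eff : ∀ g ∈ psaut, ∀ x ∈ eff, g x ∈ eff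
  map_comp : ∀ g ∈ psaut, ∀ p ∈ comp, g p ∈ comp
  comp_lattice : ∀ p ∈ comp, p ∈ L
  /-- klt is an open condition: `K_X + Δ + Σ b_j m D_j + ε E ≡ ε E + Σ b_j m D_j`. -/
  near : ∀ x ∈ eff, ∃ ε : ℝ, 0 < ε ∧ ∀ b : V → ℝ, (∀ p ∈ comp, |b p| ≤ ε) →
    ε • x + ∑ p ∈ comp, b p • p ∈ klt
  /-- geography of log models: on the cone generated by finitely many `K_X + B_i`, `(X, B_i)` klt,
  with rational classes, the closed movable cone is rational polyhedral and effective. -/
  geography : ∀ T : Finset V, (∀ x ∈ T, x ∈ L ∧ ∃ c : ℝ, 0 < c ∧ c • x ∈ klt) →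
    IsRatPoly L (mov ⊓ PointedCone.hull ℝ (T : Set V)) ∧
      mov ⊓ PointedCone.hull ℝ (T : Set V) ≤ eff

variable {V : Type*} [NormedAddCommGroup V] [NormedSpace ℝ V]

theorem MovPair.setting (P : MovPair V) : Setting P.L (P.mov ⊓ P.eff) P.psaut := by
  refine ⟨?_, P.interior_nonempty, P.map_lattice, fun g hg x hx =>
    ⟨P.map_mov g hg x hx.1, P.map_eff g hg x hx.2⟩⟩
  intro x hx hx'
  have h : closure ((P.mov ⊓ P.eff : PointedCone ℝ V) : Set V) ⊆ closure (P.eff : Set V) :=
    closure_mono fun y hy => hy.2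
  exact P.eff_salient x (h hx) (h hx')

/-- The cone `cone s + span J` is generated by `s` and the vectors `p`, `-p`, `p ∈ J`. -/
theorem sumCone_eq_hull [DecidableEq V] (s J : Finset V) :
    sumCone s J = PointedCone.hull ℝ ((s ∪ (J ∪ J.image fun p => -p) : Finset V) : Set V) := by
  apply le_antisymm
  · intro x hx
    obtain ⟨y, hy, hxy⟩ := mem_sumCone.1 hx
    have h1 : y ∈ PointedCone.hull ℝ ((s ∪ (J ∪ J.image fun p => -p) : Finset V) : Set V) :=
      Submodule.span_mono (by
        intro z hz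
        exact Finset.mem_coe.2 (Finset.mem_union_left _ (Finset.mem_coe.1 hz))) hy
    have h2 : ∀ z ∈ Submodule.span ℝ (J : Set V),
        z ∈ PointedCone.hull ℝ ((s ∪ (J ∪ J.image fun p => -p) : Finset V) : Set V) := by
      have key : ∀ p ∈ J, ∀ r : ℝ,
          r • p ∈ PointedCone.hull ℝ ((s ∪ (J ∪ J.image fun p => -p) : Finset V) : Set V) := by
        intro p hp r
        rcases le_total 0 r with hr | hr
        · refine PointedCone.smul_mem _ hr (Submodule.subset_span ?_)
          exact Finset.mem_coe.2 (Finset.mem_union_right _ (Finset.mem_union_left _ hp))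
        · have : r • p = (-r) • (-p) := by rw [smul_neg, neg_smul, neg_neg]
          rw [this]
          refine PointedCone.smul_mem _ (neg_nonneg.2 hr) (Submodule.subset_span ?_)
          exact Finset.mem_coe.2 (Finset.mem_union_right _ (Finset.mem_union_right _
            (Finset.mem_image_of_mem _ hp)))
      intro z hz
      obtain ⟨f, -, rfl⟩ := Submodule.mem_span_finset.1 hz
      exact sum_mem fun p hp => key p hp (f p)
    have h3 : x = y + (x - y) := by abel
    rw [h3]
    exact Submodule.add_mem _ h1 (h2 _ hxy)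
  · refine Submodule.span_le.2 ?_
    intro z hz
    rcases Finset.mem_union.1 (Finset.mem_coe.1 hz) with hz | hz
    · exact mem_sumCone.2 ⟨z, Submodule.subset_span hz, by rw [sub_self]; exact zero_mem _⟩
    · refine mem_sumCone.2 ⟨0, zero_mem _, ?_⟩
      rw [sub_zero]
      rcases Finset.mem_union.1 hz with hz | hz
      · exact Submodule.subset_span hz
      · obtain ⟨p, hp, rfl⟩ := Finset.mem_image.1 hz
        exact neg_mem (Submodule.subset_span hp)

/-- Finiteness modulo the boundary. -/
theorem MovPair.fin (P : MovPair V) {J₀ : Finset V} (hJ₀ : J₀ ⊆ P.comp) (s : Finset V)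
    (hs : ∀ x ∈ s, x ∈ P.L ∧ x ∈ P.eff) :
    IsRatPoly P.L (P.mov ⊓ sumCone s J₀) ∧ P.mov ⊓ sumCone s J₀ ≤ P.eff := by
  classical
  rw [sumCone_eq_hull]
  refine P.geography _ ?_
  intro x hx
  have hJ : ∀ p ∈ P.comp, ∀ r : ℝ, |r| ≤ 1 → ∃ c : ℝ, 0 < c ∧ c • (r • p) ∈ P.klt := by
    intro p hp r hr
    obtain ⟨ε, hε, h⟩ := P.near 0 (zero_mem _)
    refine ⟨ε, hε, ?_⟩
    have h' := h (fun q => if q = p then ε * r else 0) (by
      intro q hq
      by_cases hqp : q = p
      · simp only [hqp, if_true]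
        rw [abs_mul, abs_of_pos hε]
        nlinarith
      · simp only [hqp, if_false, abs_zero]
        exact hε.le)
    have hsum : ∑ q ∈ P.comp, (if q = p then ε * r else 0) • q = ε • (r • p) := by
      rw [Finset.sum_eq_single p]
      · rw [if_pos rfl, smul_smul]
      · intro q _ hqp
        rw [if_neg hqp, zero_smul]
      · intro hp'
        exact absurd hp hp'
    rw [smul_zero, zero_add, hsum] at h'
    exact h'
  rcases Finset.mem_union.1 hx with hx | hx
  · refine ⟨(hs x hx).1, ?_⟩
    obtain ⟨ε, hε, h⟩ := P.near x (hs x hx).2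
    refine ⟨ε, hε, ?_⟩
    have h' := h (fun _ => 0) (fun p _ => by rw [abs_zero]; exact hε.le)
    simpa using h'
  · rcases Finset.mem_union.1 hx with hx | hx
    · refine ⟨P.comp_lattice x (hJ₀ hx), ?_⟩
      have := hJ x (hJ₀ hx) 1 (by simp)
      rwa [one_smul] at this
    · obtain ⟨p, hp, rfl⟩ := Finset.mem_image.1 hx
      refine ⟨neg_mem (P.comp_lattice p (hJ₀ hp)), ?_⟩
      have := hJ p (hJ₀ hp) (-1) (by simp)
      rwa [neg_smul, one_smul] at this

variable {U : Type*} [NormedAddCommGroup U] [NormedSpace ℝ U] [FiniteDimensional ℝ V]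
  [FiniteDimensional ℝ U]

/-- The contraction theorem for movable cones. -/
theorem MovPair.hasRPFD_contraction (P : MovPair V) [DiscreteTopology P.L] [IsZLattice ℝ P.L]
    {M : Submodule ℤ U} [DiscreteTopology M] [IsZLattice ℝ M] {J₀ : Finset V}
    (hJ : J₀ ⊆ P.comp) {K' : PointedCone ℝ U} {G' : Subgroup (U ≃ₗ[ℝ] U)} {π : V →ₗ[ℝ] U}
    (S' : Setting M K' G') (X : IsContraction P.L (P.mov ⊓ P.eff) J₀ P.psaut M K' G' π) :
    HasRPFD P.L P.psaut (P.mov ⊓ P.eff) ↔
      HasRPFD M G' K' ∧ ((induced π P.psaut).subgroupOf G').FiniteIndex := by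
  refine Pad47bbX.hasRPFD_contraction P.setting S' hJ P.map_comp X fun s hs => ?_
  obtain ⟨h1, h2⟩ := P.fin hJ s fun x hx => ⟨(hs x hx).1, (hs x hx).2.2⟩
  have heq : P.mov ⊓ P.eff ⊓ sumCone s J₀ = P.mov ⊓ sumCone s J₀ := by
    apply le_antisymm
    · exact inf_le_inf_right _ inf_le_left
    · exact le_inf (le_inf inf_le_left h2) inf_le_right
  rw [heq]
  exact h1

end Pool.Agent.Lib.Pad47bbX
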