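import Pool.Agent.Lib.Pad47bbX.Main

/-!
Reduction modulo the boundary, general form (effective nef cones and effective movable cones).
-/

open Set Topology

namespace Pool.Agent.Lib.Pad47bbX

open Pool.Agent.Lib.Pad47bb Pool.Agent.Lib.Pad47bbQ Pool.Agent.Lib.Pad47bbV
  Pool.Agent.Lib.Pad47bbB

variable {V : Type*} [NormedAddCommGroup V] [NormedSpace ℝ V]
  {U : Type*} [NormedAddCommGroup U] [NormedSpace ℝ U]

/-- The cone data `(U, M, K', G')` are the cone data `(V, L, K, G)` modulo the span of the finite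
set `J` (the classes of the contracted components of the boundary). -/
structure IsReduction (L : Submodule ℤ V) (K : PointedCone ℝ V) (J : Finset V)
    (G : Subgroup (V ≃ₗ[ℝ] V)) (M : Submodule ℤ U) (K' : PointedCone ℝ U)
    (G' : Subgroup (U ≃ₗ[ℝ] U)) (π : V →ₗ[ℝ] U) : Prop where
  ker : ∀ x, π x = 0 ↔ x ∈ Submodule.span ℝ (J : Set V)
  preserves : ∀ g ∈ G, ∀ p ∈ J, g p ∈ Submodule.span ℝ (J : Set V)
  lattice : ∃ n : ℕ, 0 < n ∧ ∀ x ∈ L, (n : ℝ) • π x ∈ M
  map_cone : ∀ x ∈ K, π x ∈ K'
  onto : ∀ u ∈ K', ∃ x ∈ K, π x = u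
  lift : ∀ u ∈ M, u ∈ K' → ∃ n : ℕ, 0 < n ∧ ∃ x ∈ L, x ∈ K ∧ π x = (n : ℝ) • u
  descend : induced π G ≤ G'
  fin : ∀ S : Finset V, (∀ y ∈ S, y ∈ L ∧ y ∈ K) → IsRatPoly L (K ⊓ sumCone S J)

theorem IsReduction.map_span {L : Submodule ℤ V} {K : PointedCone ℝ V} {J : Finset V}
    {G : Subgroup (V ≃ₗ[ℝ] V)} {M : Submodule ℤ U} {K' : PointedCone ℝ U}
    {G' : Subgroup (U ≃ₗ[ℝ] U)} {π : V →ₗ[ℝ] U} (R : IsReduction L K J G M K' G' π)
    {g : V ≃ₗ[ℝ] V} (hg : g ∈ G) {x : V} (hx : x ∈ Submodule.span ℝ (J : Set V)) :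
    g x ∈ Submodule.span ℝ (J : Set V) := by
  induction hx using Submodule.span_induction with
  | mem x hx => exact R.preserves g hg x hx
  | zero => rw [map_zero]; exact Submodule.zero_mem _
  | add x y _ _ hx hy => rw [map_add]; exact Submodule.add_mem _ hx hy
  | smul c x _ hx => rw [map_smul]; exact Submodule.smul_mem _ c hx

variable [FiniteDimensional ℝ V] {L : Submodule ℤ V} [DiscreteTopology L] [IsZLattice ℝ L]
  [FiniteDimensional ℝ U] {M : Submodule ℤ U} [DiscreteTopology M] [IsZLattice ℝ M]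

/-- The reduction theorem. -/
theorem hasRPFD_iff_reduction {K : PointedCone ℝ V} {J : Finset V} {G : Subgroup (V ≃ₗ[ℝ] V)}
    {K' : PointedCone ℝ U} {G' : Subgroup (U ≃ₗ[ℝ] U)} {π : V →ₗ[ℝ] U}
    (S : Setting L K G) (S' : Setting M K' G') (R : IsReduction L K J G M K' G' π) :
    HasRPFD L G K ↔ HasRPFD M G' K' ∧ ((induced π G).subgroupOf G').FiniteIndex := by
  classical
  rw [← hasRPFD_subgroup_iff R.descend S']
  have hS' : Setting M K' (induced π G) := S'.mono R.descend
  obtain ⟨n, hn, hnL⟩ := R.lattice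
  have hn' : (0 : ℝ) < n := by exact_mod_cast hn
  -- `π` is surjective
  have hsurj : Function.Surjective π := by
    intro u
    obtain ⟨e, he⟩ := S'.interior_nonempty
    obtain ⟨δ, hδ, hball⟩ := Metric.isOpen_iff.1 isOpen_interior e he
    set c : ℝ := δ / (2 * (1 + ‖u‖)) with hc
    have hc0 : 0 < c := by positivity
    have hcv : ‖c • u‖ < δ := by
      rw [norm_smul, Real.norm_of_nonneg hc0.le, hc, div_mul_eq_mul_div,
        div_lt_iff₀ (by positivity)]
      nlinarith [norm_nonneg u]
    have h4 : e + c • u ∈ K' := interior_subset (hball (by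
      simpa [Metric.mem_ball, dist_eq_norm] using hcv))
    obtain ⟨x, -, hx⟩ := R.onto _ h4
    obtain ⟨y, -, hy⟩ := R.onto e (interior_subset he)
    refine ⟨c⁻¹ • (x - y), ?_⟩
    rw [map_smul, map_sub, hx, hy, add_sub_cancel_left, smul_smul, inv_mul_cancel₀ hc0.ne',
      one_smul]
  constructor
  · -- push forward
    rintro ⟨P, ⟨s, hsL, rfl⟩, hcov, -⟩
    have hsK : ∀ y ∈ PointedCone.hull ℝ (s : Set V), y ∈ K := by
      intro x hx
      show x ∈ (K : Set V)
      rw [hcov]
      exact mem_biUnion (one_mem G) ⟨x, hx, rfl⟩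
    -- every element of `G` induces an automorphism of `U`
    have hind : ∀ g ∈ G, ∃ h ∈ induced π G, ∀ x, h (π x) = π (g x) := by
      intro g hg
      have hinv : ∀ g ∈ G, ∀ x y, π x = π y → π (g x) = π (g y) := by
        intro g hg x y hxy
        have h1 : π (x - y) = 0 := by rw [map_sub, hxy, sub_self]
        have h2 := R.map_span hg ((R.ker _).1 h1)
        have h3 := (R.ker _).2 h2
        rw [map_sub, map_sub, sub_eq_zero] at h3
        exact h3
      choose σ hσ using hsurj
      have hg' := inv_mem hg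
      let h : U ≃ₗ[ℝ] U :=
        { toFun := fun u => π (g (σ u))
          map_add' := fun u v => by
            rw [← map_add, ← map_add]
            exact hinv g hg _ _ (by rw [hσ, map_add, hσ, hσ])
          map_smul' := fun c u => by
            rw [RingHom.id_apply, ← map_smul, ← map_smul]
            exact hinv g hg _ _ (by rw [hσ, map_smul, hσ])
          invFun := fun u => π (g⁻¹ (σ u))
          left_inv := fun u => by
            have h1 := hinv g⁻¹ hg' (σ (π (g (σ u)))) (g (σ u)) (hσ _)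
            have h2 : g⁻¹ (g (σ u)) = σ u := g.symm_apply_apply _
            rw [h2, hσ] at h1
            exact h1
          right_inv := fun u => by
            have h1 := hinv g hg (σ (π (g⁻¹ (σ u)))) (g⁻¹ (σ u)) (hσ _)
            have h2 : g (g⁻¹ (σ u)) = σ u := g.apply_symm_apply _
            rw [h2, hσ] at h1
            exact h1 }
      have hh : ∀ x, h (π x) = π (g x) := fun x => hinv g hg _ _ (hσ _)
      exact ⟨h, ⟨g, hg, hh⟩, hh⟩
    -- the lattice generated by the image
    refine exists_fundDomain hS' (P₁ := PointedCone.hull ℝ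
      ((s.image (fun x => (n : ℝ) • π x) : Finset U) : Set U))
      ⟨s.image (fun x => (n : ℝ) • π x), ?_, rfl⟩ ?_
    · intro u hu
      obtain ⟨a, ha, rfl⟩ := Finset.mem_image.1 hu
      exact hnL a (hsL ha)
    have hmap : ∀ u, u ∈ PointedCone.hull ℝ
        ((s.image (fun x => (n : ℝ) • π x) : Finset U) : Set U) ↔
        ∃ y ∈ PointedCone.hull ℝ (s : Set V), π y = u := by
      intro u
      rw [← map_hull π s]
      have h1 : PointedCone.hull ℝ ((s.image (fun x => (n : ℝ) • π x) : Finset U) : Set U) =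
          PointedCone.hull ℝ ((s.image π : Finset U) : Set U) := by
        apply le_antisymm
        · apply Submodule.span_le.2
          intro v hv
          obtain ⟨a, ha, rfl⟩ := Finset.mem_image.1 (Finset.mem_coe.1 hv)
          exact (PointedCone.hull ℝ ((s.image π : Finset U) : Set U)).smul_mem hn'.le
            (Submodule.subset_span (Finset.mem_coe.2 (Finset.mem_image_of_mem _ ha)))
        · apply Submodule.span_le.2
          intro v hv
          obtain ⟨a, ha, rfl⟩ := Finset.mem_image.1 (Finset.mem_coe.1 hv)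
          have h2 : (n : ℝ) • π a ∈ PointedCone.hull ℝ
              ((s.image (fun x => (n : ℝ) • π x) : Finset U) : Set U) :=
            Submodule.subset_span (Finset.mem_coe.2 (Finset.mem_image_of_mem _ ha))
          have h3 := (PointedCone.hull ℝ
            ((s.image (fun x => (n : ℝ) • π x) : Finset U) : Set U)).smul_mem
            (show (0 : ℝ) ≤ (n : ℝ)⁻¹ by positivity) h2
          rwa [smul_smul, inv_mul_cancel₀ hn'.ne', one_smul] at h3
      rw [h1]
    apply Subset.antisymm
    · intro u hu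
      obtain ⟨x, hx, rfl⟩ := R.onto u hu
      have hx' : x ∈ (K : Set V) := hx
      rw [hcov] at hx'
      simp only [mem_iUnion] at hx'
      obtain ⟨g, hg, y, hy, rfl⟩ := hx'
      obtain ⟨h, hh, hgh⟩ := hind g hg
      exact mem_biUnion hh ⟨π y, (hmap _).2 ⟨y, hy, rfl⟩, hgh y⟩
    · intro u hu
      simp only [mem_iUnion] at hu
      obtain ⟨h, hh, v, hv, rfl⟩ := hu
      obtain ⟨g, hg, hgh⟩ := mem_induced.1 hh
      obtain ⟨y, hy, rfl⟩ := (hmap v).1 hv
      rw [hgh]
      exact R.map_cone _ (S.map_cone g hg y (hsK y hy))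
  · -- lift
    rintro ⟨P, ⟨s, hsM, rfl⟩, hcov, -⟩
    have hsK : ∀ y ∈ PointedCone.hull ℝ (s : Set U), y ∈ K' := by
      intro x hx
      show x ∈ (K' : Set U)
      rw [hcov]
      exact mem_biUnion (one_mem _) ⟨x, hx, rfl⟩
    have hlift : ∀ u ∈ s, ∃ k : ℕ, 0 < k ∧ ∃ x ∈ L, x ∈ K ∧ π x = (k : ℝ) • u := fun u hu =>
      R.lift u (hsM hu) (hsK u (Submodule.subset_span hu))
    choose! k hk y hyL hyK hyu using hlift
    set Y : Finset V := s.image y with hY
    have hYK : ∀ a ∈ Y, a ∈ L ∧ a ∈ K := by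
      intro a ha
      obtain ⟨u, hu, rfl⟩ := Finset.mem_image.1 ha
      exact ⟨hyL u hu, hyK u hu⟩
    have hfin := R.fin Y hYK
    refine exists_fundDomain S hfin ?_
    apply Subset.antisymm
    · intro x hx
      have h1 : π x ∈ (K' : Set U) := R.map_cone x hx
      rw [hcov] at h1
      simp only [mem_iUnion] at h1
      obtain ⟨h, hh, v, hv, hvx⟩ := h1
      obtain ⟨g, hg, hgh⟩ := mem_induced.1 hh
      -- `v` lifts to the hull of `Y`
      have h2 : ∃ z ∈ PointedCone.hull ℝ (Y : Set V), π z = v := by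
        obtain ⟨c, hc, hvc⟩ := mem_hull_finset.1 hv
        refine ⟨∑ u ∈ s, (c u * (k u : ℝ)⁻¹) • y u, ?_, ?_⟩
        · refine Submodule.sum_mem _ fun u hu => ?_
          have h3 : 0 ≤ c u * (k u : ℝ)⁻¹ := mul_nonneg (hc u hu) (by positivity)
          exact (PointedCone.hull ℝ (Y : Set V)).smul_mem h3
            (Submodule.subset_span (Finset.mem_coe.2 (Finset.mem_image_of_mem _ hu)))
        · rw [map_sum, hvc]
          refine Finset.sum_congr rfl fun u hu => ?_
          have h3 : (k u : ℝ) ≠ 0 := by exact_mod_cast (hk u hu).ne'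
          rw [map_smul, hyu u hu, smul_smul, mul_assoc, inv_mul_cancel₀ h3, mul_one]
      obtain ⟨z, hz, rfl⟩ := h2
      refine mem_biUnion hg ⟨g⁻¹ x, ⟨S.map_cone _ (inv_mem hg) x hx, mem_sumCone.2 ⟨z, hz, ?_⟩⟩,
        g.apply_symm_apply x⟩
      have h4 : π (g z) = π x := by rw [← hgh]; exact hvx
      have h5 : g z - x ∈ Submodule.span ℝ (J : Set V) := by
        rw [← R.ker, map_sub, h4, sub_self]
      have h6 := R.map_span (inv_mem hg) h5
      have h7 : g⁻¹ (g z - x) = z - g⁻¹ x := by
        rw [map_sub]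
        congr 1
        exact g.symm_apply_apply z
      rw [h7] at h6
      have h8 := Submodule.neg_mem _ h6
      rwa [neg_sub] at h8
    · intro x hx
      simp only [mem_iUnion] at hx
      obtain ⟨g, hg, y, hy, rfl⟩ := hx
      exact S.map_cone g hg y hy.1

end Pool.Agent.Lib.Pad47bbX
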